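import Pool.Agent.X240.NR.Main

/-!
# MP_0272f9_lc: efficient nonrepetitive colouring with O(Delta^2) colours

A polynomial-time Monte Carlo algorithm which outputs a nonrepetitive colouring with at most
`64 Δ²` colours.  The algorithm colours the vertices one after another with random colours; after
each step it looks for a bad event, which is a pair of disjoint, equally coloured paths with
`t ≤ T = O(log n)` vertices such that the last vertex of the first path is adjacent to the first
vertex of the second path, or `t = T`, and uncolours the path which contains the new vertex.  Long
repetitively coloured paths contain two equally coloured disjoint paths with `T` vertices, and such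
events are so improbable that the second path may be chosen anywhere in the graph.  So it suffices
to search for paths with logarithmically many vertices, and this is done by colour coding: a random
family of hash functions is perfect with high probability, and for each hash function a dynamic
programme over the sets of used hash values finds a bad event.  The analysis is by entropy
compression.
-/

set_option autoImplicit false

namespace Pool.Agent.Results.MP_0272f9_lc.NonrepetitiveColouring

open Pool.Agent.NPC Pool.Agent.NPC.R671 Pool.Agent.X240.NR

open Classical in
/-- There are a polynomial-time computable function `A` on bit strings and a polynomial `p` such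
that for every graph `G` with `n ≥ 1` vertices the following holds: for uniformly random
`r` of length `p n`, with probability at least `1 - 1 / n`, the output of `A` on the code of the
pair (adjacency matrix of `G`, `r`) is the code of the list of colours of a nonrepetitive colouring
of `G` with colours smaller than `64 Δ²`, where `Δ` is the maximum degree of `G` (if `Δ = 0`: with
one colour). -/
theorem result : ∃ (A : List Bool → List Bool) (p : Polynomial ℕ), PolyTime A ∧
    ∀ (n : ℕ) (G : SimpleGraph (Fin n)), 1 ≤ n →
      1 - 1 / (n : ℝ) ≤ (({r : List Bool | r.length = p.eval n ∧
        ∃ c : Fin n → ℕ, A (bits (adjMatrix G, r)) = bits (List.ofFn c) ∧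
          (∀ v, c v < max 1 (64 * G.maxDegree ^ 2)) ∧ Nonrepetitive G c}.ncard : ℕ) : ℝ) /
            2 ^ p.eval n := by
  obtain ⟨A, hA, h⟩ := main
  refine ⟨A, pp, hA, fun n G hn => ?_⟩
  have h1 := h n G
  have hn0 : (0 : ℝ) < n := by exact_mod_cast hn
  rw [le_div_iff₀ (by positivity)]
  have h2 : (((n - 1) * 2 ^ pp.eval n : ℕ) : ℝ) ≤ ((n * {r : List Bool | r.length = pp.eval n ∧
      ∃ c : Fin n → ℕ, A (bits (adjMatrix G, r)) = bits (List.ofFn c) ∧
        (∀ v, c v < max 1 (64 * G.maxDegree ^ 2)) ∧ Nonrepetitive G c}.ncard : ℕ) : ℝ) := by
    exact_mod_cast h1
  rw [Nat.cast_mul, Nat.cast_mul, Nat.cast_sub hn] at h2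
  push_cast at h2
  have h3 : (1 - 1 / (n : ℝ)) = ((n : ℝ) - 1) / n := by field_simp
  rw [h3, div_mul_eq_mul_div, div_le_iff₀ hn0]
  linarith

end Pool.Agent.Results.MP_0272f9_lc.NonrepetitiveColouring
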